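import Pool.Agent.X303.PureDefs

/-!
# The cohomology of the generic point of a variety over a finite field: definitions
-/

set_option autoImplicit false

namespace Pool.Agent.T6.H22.FF

open Pool.Agent.W495.FM

/-- Data of the cohomology of the generic point of an integral scheme `X` over a finite field `F`: the
nonempty open subschemes `U u`, `u : Op`, their complements `Z u`, the `ℓ`-adic cohomology `E` of the
generic point over the algebraic closure with the Frobenius `frob`, the motivic cohomology `M` of
`Spec F(X)`, the cycle class map `reg`, and the maps `toM`, `toE` from the cohomology of the open subschemes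
to the one of the generic point. The numbering is the one of homology: if `d = dim X` then
`E (2 d - i) (d - j) = H^i(F_0 X̄, ℚ_ℓ(j))`, `M (2 d - i) (d - j) = CH^j(Spec F(X), 2 j - i) ⊗ ℚ`, and
`T.E U (2 d - i) (d - j) = H^i_BM(Ū, ℚ_ℓ(j))`. -/
structure Generic {Ω V : Type} [Field Ω] (T : Homology Ω V) where
  Op : Type
  U : Op → V
  Z : Op → V
  M : ℤ → ℤ → Type
  E : ℤ → ℤ → Type
  [grp : ∀ a b, AddCommGroup (E a b)]
  [mod : ∀ a b, Module Ω (E a b)]
  frob : ∀ a b, E a b → E a b
  reg : ∀ a b, M a b → E a b
  toM : ∀ u a b, T.M (U u) a b → M a b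
  toE : ∀ u a b, T.E (U u) a b → E a b

attribute [instance] Generic.grp Generic.mod

variable {Ω V : Type} [Field Ω] {T : Homology Ω V}

/-- The `ℓ`-adic cohomology of the generic point is the direct limit of the cohomology of the open
subschemes. We use that the maps to the limit are linear and compatible with the cycle class maps, and
that every invariant element of the limit comes from an invariant element for some open subscheme
(direct limits are exact). -/
structure IsLimit (G : Generic T) : Prop where
  lin : ∀ u a b, IsLin Ω (G.toE u a b)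
  reg : ∀ u a b x, G.toE u a b (T.reg (G.U u) a b x) = G.reg a b (G.toM u a b x)
  inv : ∀ a b ε, G.frob a b ε = ε → ∃ u e, T.frob (G.U u) a b e = e ∧ G.toE u a b e = ε

/-- There are no nonzero invariant elements in `H_a(Y, ℚ_ℓ(b))`. -/
def NoInvariants (T : Homology Ω V) (Y : V) (a b : ℤ) : Prop :=
  ∀ e : T.E Y a b, T.frob Y a b e = e → e = 0

/-- The invariant elements of `H_a(Y, ℚ_ℓ(b))` are combinations of images of motivic classes. -/
def Onto (T : Homology Ω V) (Y : V) (a b : ℤ) : Prop :=
  ∀ e : T.E Y a b, T.frob Y a b e = e → e ∈ Submodule.span Ω (Set.range (T.reg Y a b))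

/-- `G` is the generic point of the smooth projective geometrically integral scheme `X` of dimension
`d`: the cohomology of `X` is pure (Deligne), the cohomology of the generic point is the limit of the
one of the open subschemes `U`, there are the localisation sequences for `U` and its complement `Z`, and

* the weights of `H_a(Y, ℚ_ℓ(b))` are at least `2 b - a` for `Y = Z` and `Y = U`, and for `Y = U` at most
  `2 (d + b - a)` (Deligne; the latter is `2 i - 2 j` for `H^i(Ū, ℚ_ℓ(j))`);
* if `dim Y ≤ e` then the invariant elements of `H_(2 e - 1)(Y, ℚ_ℓ(e - 1))` come from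
  `CH_(e - 1)(Y, 1)`; for smooth `Y` of dimension `e` these groups are `H^1(Ȳ, ℚ_ℓ(1))` and
  `O(Y)^* ⊗ ℚ` (Kummer); this is applied to `Y = U` and `Y = Z`. -/
structure IsGenericPoint (X : V) (d : ℤ) (G : Generic T) : Prop where
  pure : Pool.Agent.X303.TBDual.IsPure T X
  limit : IsLimit G
  triple : ∀ u, IsTriple T (G.Z u) X (G.U u)
  weights : ∀ u a b, a < 2 * b → NoInvariants T (G.Z u) a b ∧ NoInvariants T (G.U u) a b
  low : ∀ u a b, d + b < a → NoInvariants T (G.U u) a b
  kummer : ∀ u, Onto T (G.U u) (2 * d - 1) (d - 1) ∧
    Onto T (G.Z u) (2 * (d - 1) - 1) (d - 1 - 1)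

/-- The cohomology `H^i` of the generic point vanishes for `i > d` (Artin). -/
def VanishesAbove (G : Generic T) (d : ℤ) : Prop := ∀ a b, a < d → ∀ e : G.E a b, e = 0

/-- `G'` is the generic point of a variety `X'` of dimension `d'` which is dominated by the variety `X` of
dimension `d` with the generic point `G` (there is a dominant rational map `X ⇢ X'`; for instance
`X = X'`): the composition of the pull-back `f` from `G'` to `G` and a map `t` is the multiplication by a
positive integer `N`, and `t` is compatible with the cycle class maps. If `F(X)` is finite over `F(X')`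
then `t` is the transfer, in general `F(X)` is finite over a purely transcendental extension of `F(X')`
and `t` is the composition of the transfer and of specialisations. -/
def IsDominatedBy (G' G : Generic T) (d' d : ℤ) : Prop :=
  ∀ i j, ∃ (f : G'.E (2 * d' - i) (d' - j) → G.E (2 * d - i) (d - j))
    (t : G.E (2 * d - i) (d - j) → G'.E (2 * d' - i) (d' - j))
    (s : G.M (2 * d - i) (d - j) → G'.M (2 * d' - i) (d' - j)) (N : ℕ),
    IsLin Ω t ∧ 0 < N ∧ (∀ e, t (f e) = N • e) ∧ (∀ e, f (G'.frob _ _ e) = G.frob _ _ (f e)) ∧
      ∀ x, t (G.reg _ _ x) = G'.reg _ _ (s x)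

/-- The statement of the Tate conjecture for the function field of a variety of dimension `d`, in
degree `i` and with twist `j`: every invariant class in `H^i(F_0 X̄, ℚ_ℓ(j))` is a linear combination of
images of elements of `CH^j(Spec F(X), 2 j - i)`. -/
def FunctionFieldTate (G : Generic T) (d i j : ℤ) : Prop :=
  ∀ e : G.E (2 * d - i) (d - j), G.frob _ _ e = e →
    e ∈ Submodule.span Ω (Set.range (G.reg (2 * d - i) (d - j)))

end Pool.Agent.T6.H22.FF
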