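import Pool.Agent.T6.H22.FF.Defs
import Pool.Agent.X303.TBDual

/-!
# The Tate conjecture for function fields over finite fields: theorems
-/

set_option autoImplicit false

namespace Pool.Agent.T6.H22.FF

open Pool.Agent.W495.FM Module

/-- Invariant elements of a quotient lift to invariant elements, if the eigenvalue one is
semisimple. -/
theorem lift_invariant {K E : Type} [Field K] [AddCommGroup E] [Module K E] [FiniteDimensional K E]
    (F : E →ₗ[K] E) (hss : ∀ e, F (F e - e) = F e - e → F e = e) (I : Submodule K E)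
    (hI : ∀ x ∈ I, F x ∈ I) {x : E} (hx : F x - x ∈ I) : ∃ k, F k = k ∧ x - k ∈ I := by
  set N : E →ₗ[K] E := F - LinearMap.id with hN
  have hNe : ∀ e, N e = F e - e := fun e => rfl
  have hdis : ∀ z, N z = 0 → z ∈ LinearMap.range N → z = 0 := by
    rintro z hz ⟨w, rfl⟩
    rw [hNe] at hz ⊢
    rw [hNe] at hz
    exact sub_eq_zero.2 (hss w (sub_eq_zero.1 hz))
  have hdisj : Disjoint (LinearMap.ker N) (LinearMap.range N) := by
    rw [Submodule.disjoint_def]
    intro z hz hz'
    exact hdis z (LinearMap.mem_ker.1 hz) hz'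
  have hsup : LinearMap.ker N ⊔ LinearMap.range N = ⊤ := by
    apply Submodule.eq_top_of_finrank_eq
    have h1 := Submodule.finrank_sup_add_finrank_inf_eq (LinearMap.ker N) (LinearMap.range N)
    rw [hdisj.eq_bot, finrank_bot, add_zero] at h1
    have h2 := LinearMap.finrank_range_add_finrank_ker N
    omega
  have hmem : x ∈ LinearMap.ker N ⊔ LinearMap.range N := by
    rw [hsup]
    trivial
  obtain ⟨k, hk, y, ⟨w, rfl⟩, hxk⟩ := Submodule.mem_sup.1 hmem
  refine ⟨k, ?_, ?_⟩
  · have h1 : N k = 0 := LinearMap.mem_ker.1 hk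
    rw [hNe] at h1
    exact sub_eq_zero.1 h1
  · have h1 : x - k = N w := by rw [← hxk]; abel
    rw [h1]
    have h2 : N (N w) ∈ I := by
      have h3 : N x = N (N w) := by
        rw [← hxk, map_add, LinearMap.mem_ker.1 hk, zero_add]
      rw [← h3]
      exact hx
    -- `N` is bijective on `I ⊓ range N`
    set I' : Submodule K E := I ⊓ LinearMap.range N with hI'
    have hstab : ∀ z ∈ I', N z ∈ I' := by
      intro z hz
      refine ⟨?_, z, rfl⟩
      rw [hNe]
      exact I.sub_mem (hI z hz.1) hz.1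
    set R : I' →ₗ[K] I' := N.restrict hstab with hR
    have hinj : Function.Injective R := by
      rw [← LinearMap.ker_eq_bot, LinearMap.ker_eq_bot']
      intro z hz
      have h3 : N (z : E) = 0 := congrArg Subtype.val hz
      exact Subtype.ext (hdis _ h3 z.2.2)
    have hsurj : Function.Surjective R := LinearMap.injective_iff_surjective.1 hinj
    obtain ⟨v, hv⟩ := hsurj ⟨N (N w), h2, N w, rfl⟩
    have h3 : N (v : E) = N (N w) := congrArg Subtype.val hv
    have h4 : N w - v = 0 := by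
      refine hdis _ ?_ ((LinearMap.range N).sub_mem ⟨w, rfl⟩ v.2.2)
      rw [map_sub, h3, sub_self]
    rw [sub_eq_zero.1 h4]
    exact v.2.1

variable {Ω V : Type} [Field Ω] [CharZero Ω] {T : Homology Ω V}

omit [CharZero Ω] in
theorem frob_span (hT : IsHomology T) (X : V) (i j : ℤ) {e : T.E X i j}
    (he : e ∈ Submodule.span Ω (Set.range (T.reg X i j))) : T.frob X i j e = e := by
  obtain ⟨φ, hφ⟩ := hT.lin X i j
  rw [hφ]
  induction he using Submodule.span_induction with
  | mem x hx =>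
    obtain ⟨y, rfl⟩ := hx
    rw [← hφ, hT.frob_reg]
  | zero => rw [map_zero]
  | add x y _ _ hx hy => rw [map_add, hx, hy]
  | smul c x _ hx => rw [map_smul, hx]

omit [CharZero Ω] in
theorem map_span {X X' : V} {i j i' j' : ℤ} (b : Hom T X i j X' i' j') {e : T.E X i j}
    (he : e ∈ Submodule.span Ω (Set.range (T.reg X i j))) :
    b.g e ∈ Submodule.span Ω (Set.range (T.reg X' i' j')) := by
  obtain ⟨φ, hφ⟩ := b.lin
  rw [hφ]
  induction he using Submodule.span_induction with
  | mem x hx =>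
    obtain ⟨y, rfl⟩ := hx
    rw [← hφ, ← b.reg]
    exact Submodule.subset_span ⟨_, rfl⟩
  | zero => rw [map_zero]; exact Submodule.zero_mem _
  | add x y _ _ hx hy => rw [map_add]; exact Submodule.add_mem _ hx hy
  | smul c x _ hx => rw [map_smul]; exact Submodule.smul_mem _ _ hx

omit [CharZero Ω] in
/-- An invariant class on an open subscheme whose boundary is the boundary of a combination of
elements of motivic homology is such a combination. -/
theorem opened (hT : IsHomology T) {Z X U : V} {n j : ℤ} (hX : TB T X)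
    {a : Hom T Z (n + 1) j X (n + 1) j} {b : Hom T X (n + 1) j U (n + 1) j}
    {d : Hom T U (n + 1) j Z n j} (hab : IsExact a b) (hbd : IsExact b d)
    {e u : T.E U (n + 1) j} (he : T.frob U (n + 1) j e = e)
    (hu : u ∈ Submodule.span Ω (Set.range (T.reg U (n + 1) j))) (hd : d.g e = d.g u) :
    e ∈ Submodule.span Ω (Set.range (T.reg U (n + 1) j)) := by
  have hfin := hT.finite X (n + 1) j
  obtain ⟨FX, hFX⟩ := hT.lin X (n + 1) j
  obtain ⟨FU, hFU⟩ := hT.lin U (n + 1) j
  obtain ⟨FZ, hFZ⟩ := hT.lin Z (n + 1) j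
  obtain ⟨ga, hga⟩ := a.lin
  obtain ⟨gb, hgb⟩ := b.lin
  obtain ⟨gd, hgd⟩ := d.lin
  have hfu := frob_span hT U (n + 1) j hu
  have h1 : d.g (e - u) = 0 := by
    rw [hgd, hgd] at hd
    rw [hgd, map_sub, hd, sub_self]
  obtain ⟨x, hx⟩ := (hbd.2 (e - u)).1 h1
  set I : Submodule Ω (T.E X (n + 1) j) := LinearMap.range ga with hI
  have hIa : ∀ y, y ∈ I ↔ b.g y = 0 := by
    intro y
    rw [hab.2 y]
    constructor
    · rintro ⟨z, rfl⟩
      exact ⟨z, hga z⟩
    · rintro ⟨z, rfl⟩
      exact ⟨z, (hga z).symm⟩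
  have h2 : FX x - x ∈ I := by
    rw [hIa, hgb, map_sub, ← hgb, ← hgb, ← hFX, ← b.frob, hx, hFU, map_sub, ← hFU, ← hFU, he,
      hfu, sub_self]
  obtain ⟨k, hk, hxk⟩ := lift_invariant FX (fun y hy => by
    have h3 := (hX (n + 1) j).2.2 y
    rw [hFX] at h3
    rw [hFX] at h3
    exact h3 hy) I (fun y hy => by
      obtain ⟨z, rfl⟩ := hy
      refine ⟨FZ z, ?_⟩
      rw [← hga, ← hFZ, ← a.frob, hFX, hga]) h2
  rw [hIa, hgb, map_sub, sub_eq_zero, ← hgb, ← hgb, hx] at hxk
  have h3 : k ∈ Submodule.span Ω (Set.range (T.reg X (n + 1) j)) := by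
    rw [← (hX (n + 1) j).1, hFX, hk]
  have h4 : e = b.g k + u := by rw [← hxk]; abel
  rw [h4]
  exact Submodule.add_mem _ (map_span b h3) hu

omit [CharZero Ω] in
/-- The case without invariant elements in the homology of `Z`. -/
theorem opened_middle (hT : IsHomology T) {Z X U : V} (hX : TB T X) (h : IsTriple T Z X U)
    {a b : ℤ} (hZ : NoInvariants T Z (a - 1) b) {e : T.E U a b}
    (he : T.frob U a b e = e) : e ∈ Submodule.span Ω (Set.range (T.reg U a b)) := by
  obtain ⟨n, rfl⟩ : ∃ n, a = n + 1 := ⟨a - 1, by ring⟩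
  rw [add_sub_cancel_right] at hZ
  obtain ⟨α, β, δ, hex⟩ := h b
  refine opened hT hX (hex (n + 1)).1 (hex n).2.1 he (Submodule.zero_mem _) ?_
  have h1 : (δ n).g e = 0 := by
    refine hZ _ ?_
    rw [(δ n).frob, he]
  obtain ⟨g, hg⟩ := (δ n).lin
  rw [h1, hg, map_zero]

/-- The case of `H^2` with twist two. -/
theorem opened_two (hT : IsHomology T) {Z X U : V} (hX : TB T X)
    (hp : Pool.Agent.X303.TBDual.IsPure T X) (h : IsTriple T Z X U) {n b : ℤ}
    (hZ : Onto T Z n b)
    (hnb : n ≠ 2 * b) {e : T.E U (n + 1) b} (he : T.frob U (n + 1) b e = e) :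
    e ∈ Submodule.span Ω (Set.range (T.reg U (n + 1) b)) := by
  obtain ⟨α, β, δ, hex⟩ := h b
  have h1 : (δ n).g e ∈ Submodule.span Ω (Set.range (T.reg Z n b)) :=
    hZ _ (by rw [(δ n).frob, he])
  obtain ⟨g, hg⟩ := (δ n).lin
  have h2 : ∀ ε ∈ Submodule.span Ω (Set.range (T.reg Z n b)),
      ∃ u ∈ Submodule.span Ω (Set.range (T.reg U (n + 1) b)), (δ n).g u = ε := by
    intro ε hε
    induction hε using Submodule.span_induction with
    | mem x hx =>
      obtain ⟨z, rfl⟩ := hx
      have h3 : (α n).f z = 0 := Pool.Agent.X303.TBDual.parshin hT hX hp hnb _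
      obtain ⟨y, hy⟩ := ((hex n).2.2.1 z).1 h3
      exact ⟨T.reg U (n + 1) b y, Submodule.subset_span ⟨y, rfl⟩, by rw [← (δ n).reg, hy]⟩
    | zero => exact ⟨0, Submodule.zero_mem _, by rw [hg, map_zero]⟩
    | add x y _ _ hx hy =>
      obtain ⟨u, hu, rfl⟩ := hx
      obtain ⟨v, hv, rfl⟩ := hy
      exact ⟨u + v, Submodule.add_mem _ hu hv, by rw [hg, hg, hg, map_add]⟩
    | smul c x _ hx =>
      obtain ⟨u, hu, rfl⟩ := hx
      exact ⟨c • u, Submodule.smul_mem _ _ hu, by rw [hg, hg, map_smul]⟩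
  obtain ⟨u, hu, hue⟩ := h2 _ h1
  exact opened hT hX (hex (n + 1)).1 (hex n).2.1 he hu hue.symm

omit [CharZero Ω] in
/-- Passage to the limit. -/
theorem limit_tate {G : Generic T} (hG : IsLimit G) {a b : ℤ}
    (h : ∀ u, Onto T (G.U u) a b) (ε : G.E a b) (hε : G.frob a b ε = ε) :
    ε ∈ Submodule.span Ω (Set.range (G.reg a b)) := by
  obtain ⟨u, e, he, rfl⟩ := hG.inv a b ε hε
  obtain ⟨t, ht⟩ := hG.lin u a b
  have h4 := h u e he
  rw [ht]
  clear he hε
  induction h4 using Submodule.span_induction with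
  | mem x hx =>
    obtain ⟨y, rfl⟩ := hx
    rw [← ht, hG.reg]
    exact Submodule.subset_span ⟨_, rfl⟩
  | zero => rw [map_zero]; exact Submodule.zero_mem _
  | add x y _ _ hx hy => rw [map_add]; exact Submodule.add_mem _ hx hy
  | smul c x _ hx => rw [map_smul]; exact Submodule.smul_mem _ _ hx

/-- **The Tate conjecture for the function field of `X` in the degrees `i` and twists `j` with
`2 j ≤ i`, or `i < j`, or `i = j ≤ 2`.** -/
theorem tate_of_tb (hT : IsHomology T) {X : V} (hX : TB T X) {d : ℤ} {G : Generic T}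
    (hG : IsGenericPoint X d G) {i j : ℤ} (hij : 2 * j ≤ i ∨ i < j ∨ (i = j ∧ j ≤ 2)) :
    FunctionFieldTate G d i j := by
  refine limit_tate hG.limit fun u e he => ?_
  have h0 : ∀ {a b : ℤ}, NoInvariants T (G.U u) a b → Onto T (G.U u) a b := by
    intro a b h e he
    rw [h e he]
    exact Submodule.zero_mem _
  by_cases h1 : 2 * j < i
  · exact h0 (hG.weights u _ _ (by omega)).2 e he
  by_cases h2 : 2 * j = i
  · exact opened_middle hT hX (hG.triple u) (hG.weights u _ _ (by omega)).1 he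
  by_cases h3 : i < j
  · exact h0 (hG.low u _ _ (by omega)) e he
  have h4 : i = j := by omega
  subst h4
  have h5 : i = 1 ∨ i = 2 := by omega
  rcases h5 with rfl | rfl
  · exact (hG.kummer u).1 e he
  · have h6 : (2 * d - 2 : ℤ) = (2 * (d - 1) - 1) + 1 := by ring
    have h7 : (d - 2 : ℤ) = d - 1 - 1 := by ring
    have key : ∀ (a b : ℤ), a = (2 * (d - 1) - 1) + 1 → b = d - 1 - 1 →
        Onto T (G.U u) a b := by
      rintro a b rfl rfl e he
      exact opened_two hT hX hG.pure (hG.triple u) (hG.kummer u).2 (by omega) he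
    exact key _ _ h6 h7 e he

/-- Varieties dominated by `X`. -/
theorem tate_of_dominated {d d' : ℤ} {G G' : Generic T}
    (hG : IsDominatedBy G' G d' d) {i j : ℤ} (h : FunctionFieldTate G d i j) :
    FunctionFieldTate G' d' i j := by
  intro e he
  obtain ⟨f, t, tM, N, ht, hN, htf, hf, htM⟩ := hG i j
  obtain ⟨τ, hτ⟩ := ht
  have h1 : f e ∈ Submodule.span Ω (Set.range (G.reg (2 * d - i) (d - j))) :=
    h _ (by rw [← hf, he])
  have h2 : t (f e) ∈ Submodule.span Ω (Set.range (G'.reg (2 * d' - i) (d' - j))) := by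
    rw [hτ]
    generalize f e = e' at h1
    induction h1 using Submodule.span_induction with
    | mem x hx =>
      obtain ⟨y, rfl⟩ := hx
      rw [← hτ, htM]
      exact Submodule.subset_span ⟨_, rfl⟩
    | zero => rw [map_zero]; exact Submodule.zero_mem _
    | add x y _ _ hx hy => rw [map_add]; exact Submodule.add_mem _ hx hy
    | smul c x _ hx => rw [map_smul]; exact Submodule.smul_mem _ _ hx
  rw [htf] at h2
  have h3 : e = (N : Ω)⁻¹ • (N • e) := by
    rw [← Nat.cast_smul_eq_nsmul Ω N e, smul_smul, inv_mul_cancel₀ (Nat.cast_ne_zero.2 hN.ne'),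
      one_smul]
  rw [h3]
  exact Submodule.smul_mem _ _ h2

/-- **The Tate conjecture for the function fields of the varieties that are dominated by `X`.** -/
theorem tate_dominated (hT : IsHomology T) {X : V} (hX : TB T X) {d d' : ℤ} {G G' : Generic T}
    (hG : IsGenericPoint X d G) (hG' : IsDominatedBy G' G d' d)
    (hd : VanishesAbove G' d') {i j : ℤ}
    (hij : 2 * j ≤ i ∨ i < j ∨ (i = j ∧ j ≤ 2) ∨ d' ≤ 2) : FunctionFieldTate G' d' i j := by
  by_cases h1 : d' < i
  · intro e _
    rw [hd _ _ (by omega) e]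
    exact Submodule.zero_mem _
  · exact tate_of_dominated hG' (tate_of_tb hT hX hG (by omega))

end Pool.Agent.T6.H22.FF
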